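import Pool.Agent.Lib.MP_d9d638_lc.OmBasic

/-!
A coherent family of finite-to-one functions `e β : β → ω`, `β < ω₁` (Todorcevic's function
`ρ`-like, by one recursion without distinguishing successors and limits).
-/

namespace MP_d9d638_lc

open Set Cardinal Ordinal

theorem exists_enum : ∃ en : Om → ℕ → Om, ∀ β, (∃ a, a < β) →
    (∀ n, en β n < β) ∧ ∀ ξ < β, ∃ n, en β n = ξ := by
  have : ∀ β : Om, ∃ f : ℕ → Om, (∃ a, a < β) → (∀ n, f n < β) ∧ ∀ ξ < β, ∃ n, f n = ξ := by
    intro β
    by_cases hβ : ∃ a, a < β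
    · obtain ⟨f, hf⟩ := (Om.iio β).exists_eq_range hβ
      refine ⟨f, fun _ => ⟨fun n => ?_, fun ξ hξ => ?_⟩⟩
      · have : f n ∈ Iio β := by
          rw [hf]
          exact mem_range_self n
        exact this
      · have : ξ ∈ range f := by
          rw [← hf]
          exact hξ
        exact this
    · exact ⟨fun _ => β, fun h => absurd h hβ⟩
  choose en hen using this
  exact ⟨en, hen⟩

theorem exists_rec (en : Om → ℕ → Om)
    (hen : ∀ β, (∃ a, a < β) → (∀ n, en β n < β) ∧ ∀ ξ < β, ∃ n, en β n = ξ) :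
    ∃ e : Om → Om → ℕ, ∀ β, ∀ ξ < β, ∃ n, ξ ≤ en β n ∧ (∀ m < n, ¬ ξ ≤ en β m) ∧
      e β ξ = max n (if ξ < en β n then e (en β n) ξ else 0) := by
  classical
  let F : (β : Om) → ((γ : Om) → γ < β → Om → ℕ) → Om → ℕ := fun β ih ξ =>
    if h : ∃ n, ξ ≤ en β n then
      max (Nat.find h) (if ξ < en β (Nat.find h) then
        (if h2 : en β (Nat.find h) < β then ih (en β (Nat.find h)) h2 ξ else 0) else 0)
    else 0
  let e : Om → Om → ℕ := WellFounded.fix (C := fun _ => Om → ℕ) wellFounded_lt F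
  have he : ∀ β, e β = F β (fun γ _ => e γ) := fun β => WellFounded.fix_eq _ _ _
  refine ⟨e, fun β ξ hξ => ?_⟩
  have h : ∃ n, ξ ≤ en β n := by
    obtain ⟨n, hn⟩ := (hen β ⟨ξ, hξ⟩).2 ξ hξ
    exact ⟨n, hn.ge⟩
  refine ⟨Nat.find h, Nat.find_spec h, fun m hm => Nat.find_min h hm, ?_⟩
  rw [he]
  simp only [F]
  rw [dif_pos h, dif_pos ((hen β ⟨ξ, hξ⟩).1 _)]

theorem exists_coherent : ∃ e : Om → Om → ℕ,
    (∀ β m, {ξ | ξ < β ∧ e β ξ ≤ m}.Finite) ∧
    ∀ α β, α ≤ β → {ξ | ξ < α ∧ e α ξ ≠ e β ξ}.Finite := by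
  obtain ⟨en, hen⟩ := exists_enum
  obtain ⟨e, he⟩ := exists_rec en hen
  have key : ∀ β, (∀ m, {ξ | ξ < β ∧ e β ξ ≤ m}.Finite) ∧
      ∀ α < β, {ξ | ξ < α ∧ e α ξ ≠ e β ξ}.Finite := by
    intro β
    induction β using WellFoundedLT.induction with
    | ind β ih =>
      constructor
      · intro m
        have hfin : (⋃ n ∈ Iic m, (insert (en β n)
            {ξ | ξ < en β n ∧ e (en β n) ξ ≤ m ∧ ∃ a, a < β})).Finite := by
          refine (Set.finite_Iic m).biUnion fun n _ => ?_
          by_cases hβ : ∃ a, a < β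
          · exact (((ih (en β n) ((hen β hβ).1 n)).1 m).subset
              (fun ξ hξ => ⟨hξ.1, hξ.2.1⟩)).insert _
          · have : {ξ | ξ < en β n ∧ e (en β n) ξ ≤ m ∧ ∃ a, a < β} = ∅ := by
              ext ξ
              simp only [mem_ofPred_eq, mem_empty_iff_false, iff_false]
              rintro ⟨-, -, h⟩
              exact hβ h
            rw [this]
            exact Set.finite_empty.insert _
        refine hfin.subset ?_
        rintro ξ ⟨h1, h2⟩
        obtain ⟨n, hn1, -, hn3⟩ := he β ξ h1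
        rw [hn3] at h2
        refine mem_iUnion₂.2 ⟨n, (le_max_left _ _).trans h2, ?_⟩
        rcases hn1.lt_or_eq with h3 | h3
        · refine mem_insert_of_mem _ ⟨h3, ?_, ξ, h1⟩
          rw [if_pos h3] at h2
          exact (le_max_right _ _).trans h2
        · rw [h3]
          exact mem_insert _ _
      · intro α hα
        have hβ : ∃ a, a < β := ⟨α, hα⟩
        obtain ⟨k, hk⟩ := (hen β hβ).2 α hα
        have hfin : (⋃ n ∈ Iic k, (insert (en β n)
            ({ξ | ξ < α ∧ ξ < en β n ∧ e (en β n) ξ ≠ e α ξ} ∪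
              {ξ | ξ < en β n ∧ e (en β n) ξ ≤ n}))).Finite := by
          refine (Set.finite_Iic k).biUnion fun n _ => ?_
          refine Set.Finite.insert _ (Set.Finite.union ?_ ?_)
          · have hn := (hen β hβ).1 n
            rcases lt_trichotomy (en β n) α with h | h | h
            · exact ((ih α hα).2 (en β n) h).subset fun ξ hξ => ⟨hξ.2.1, hξ.2.2⟩
            · rw [h]
              have : {ξ | ξ < α ∧ ξ < α ∧ e α ξ ≠ e α ξ} = ∅ := by
                ext ξ
                simp
              rw [this]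
              exact Set.finite_empty
            · exact ((ih (en β n) hn).2 α h).subset fun ξ hξ => ⟨hξ.1, hξ.2.2.symm⟩
          · exact (ih (en β n) ((hen β hβ).1 n)).1 n
        refine hfin.subset ?_
        rintro ξ ⟨h1, h2⟩
        obtain ⟨n, hn1, hn2, hn3⟩ := he β ξ (h1.trans hα)
        have hnk : n ≤ k := by
          by_contra hlt
          push Not at hlt
          exact hn2 k hlt (by rw [hk]; exact h1.le)
        refine mem_iUnion₂.2 ⟨n, hnk, ?_⟩
        rcases hn1.lt_or_eq with h3 | h3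
        · refine mem_insert_of_mem _ ?_
          rw [if_pos h3] at hn3
          by_cases h4 : e (en β n) ξ ≤ n
          · exact Or.inr ⟨h3, h4⟩
          · left
            refine ⟨h1, h3, fun h5 => h2 ?_⟩
            rw [hn3, h5]
            rw [h5] at h4
            exact (max_eq_right (not_le.1 h4).le).symm
        · rw [h3]
          exact mem_insert _ _
  refine ⟨e, fun β m => (key β).1 m, fun α β hαβ => ?_⟩
  rcases hαβ.lt_or_eq with h | h
  · exact (key β).2 α h
  · subst h
    have : {ξ | ξ < α ∧ e α ξ ≠ e α ξ} = ∅ := by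
      ext ξ
      simp
    rw [this]
    exact Set.finite_empty

/-- the truncation of a function to `α` -/
noncomputable def trunc (g : Om → ℕ) (α : Om) : Om → ℕ := by
  classical
  exact fun ξ => if ξ < α then g ξ else 0

theorem trunc_of_lt {g : Om → ℕ} {α ξ : Om} (h : ξ < α) : trunc g α ξ = g ξ := by
  simp [trunc, h]

theorem trunc_of_le {g : Om → ℕ} {α ξ : Om} (h : α ≤ ξ) : trunc g α ξ = 0 := by
  simp [trunc, not_lt.2 h]

/-- finite-to-one coherent functions with countably many traces on every `α` -/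
theorem exists_traces : ∃ e : Om → Om → ℕ,
    (∀ β m, {ξ | ξ < β ∧ e β ξ ≤ m}.Finite) ∧
    ∀ α, {g : Om → ℕ | ∃ η, α ≤ η ∧ g = trunc (e η) α}.Countable := by
  obtain ⟨e, he1, he2⟩ := exists_coherent
  refine ⟨e, he1, fun α => ?_⟩
  have hc : (Iio α ×ˢ (univ : Set ℕ)).Countable := (Om.iio α).prod Set.countable_univ
  have hc2 := Set.countable_ofPred_finite_subset hc
  let G : (Om → ℕ) → Set (Om × ℕ) := fun g => {p | p.1 < α ∧ p.2 = g p.1 ∧ e α p.1 ≠ g p.1}
  refine Set.MapsTo.countable_of_injOn (f := G) ?_ ?_ hc2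
  · rintro g ⟨η, hη, rfl⟩
    refine ⟨?_, ?_⟩
    · have hfin := (he2 α η hη).image (fun ξ => (ξ, e η ξ))
      refine hfin.subset ?_
      rintro ⟨ξ, n⟩ ⟨h1, h2, h3⟩
      simp only at h1 h2 h3
      rw [trunc_of_lt h1] at h2 h3
      exact ⟨ξ, ⟨h1, h3⟩, by rw [h2]⟩
    · rintro ⟨ξ, n⟩ ⟨h1, -⟩
      exact ⟨h1, mem_univ _⟩
  · rintro g ⟨η, hη, rfl⟩ g' ⟨η', hη', rfl⟩ hG
    funext ξ
    by_cases hξ : ξ < α
    · rw [trunc_of_lt hξ, trunc_of_lt hξ]
      by_cases h1 : e α ξ = e η ξ
      · by_cases h2 : e α ξ = e η' ξ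
        · rw [← h1, h2]
        · have h3 : (ξ, e η' ξ) ∈ G (trunc (e η') α) := by
            refine ⟨hξ, ?_, ?_⟩
            · simp only
              rw [trunc_of_lt hξ]
            · simp only
              rw [trunc_of_lt hξ]
              exact h2
          rw [← hG] at h3
          have h4 := h3.2.1
          simp only at h4
          rw [trunc_of_lt hξ] at h4
          exact h4.symm
      · have h3 : (ξ, e η ξ) ∈ G (trunc (e η) α) := by
          refine ⟨hξ, ?_, ?_⟩
          · simp only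
            rw [trunc_of_lt hξ]
          · simp only
            rw [trunc_of_lt hξ]
            exact h1
        rw [hG] at h3
        have h4 := h3.2.1
        simp only at h4
        rw [trunc_of_lt hξ] at h4
        exact h4
    · rw [trunc_of_le (not_lt.1 hξ), trunc_of_le (not_lt.1 hξ)]

end MP_d9d638_lc
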