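import Pool.Agent.Lib.MP_d9d638_lc.SegTree
import Pool.Agent.Lib.MP_d9d638_lc.Coh

/-!
Diamond plus gives a strong Kurepa tree.
-/

namespace MP_d9d638_lc

open Set Cardinal Ordinal

/-- the least element of `C` above `γ` (or `γ` if there is none) -/
noncomputable def nxt (C : Set Om) (γ : Om) : Om := by
  classical
  exact if h : ∃ c, c ∈ C ∧ γ < c ∧ ∀ d ∈ C, γ < d → c ≤ d then h.choose else γ

theorem nxt_eq {C : Set Om} {γ c : Om} (h1 : c ∈ C) (h2 : γ < c)
    (h3 : ∀ d ∈ C, γ < d → c ≤ d) : nxt C γ = c := by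
  have h : ∃ c, c ∈ C ∧ γ < c ∧ ∀ d ∈ C, γ < d → c ≤ d := ⟨c, h1, h2, h3⟩
  rw [nxt, dif_pos h]
  obtain ⟨h4, h5, h6⟩ := h.choose_spec
  exact le_antisymm (h6 c h1 h2) (h3 _ h4 h5)

theorem nxt_spec {C : Set Om} (hC : ∀ a : Om, ∃ c ∈ C, a < c) (γ : Om) :
    nxt C γ ∈ C ∧ γ < nxt C γ ∧ ∀ d ∈ C, γ < d → nxt C γ ≤ d := by
  obtain ⟨c, hc1, hc2⟩ := hC γ
  obtain ⟨m, hm, hmin⟩ := Om.least (S := {c | c ∈ C ∧ γ < c}) ⟨c, hc1, hc2⟩
  rw [nxt_eq hm.1 hm.2 fun d h1 h2 => hmin d ⟨h1, h2⟩]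
  exact ⟨hm.1, hm.2, fun d h1 h2 => hmin d ⟨h1, h2⟩⟩

/-- the coding function of a pair -/
noncomputable def code (e : Om → Om → ℕ) (X C : Set Om) : Om → Option (Set Om) × ℕ := by
  classical
  exact fun γ => (if γ ∈ C then some (X ∩ Iio γ) else none, e (nxt C γ) γ)

theorem code_fst_of_mem {e : Om → Om → ℕ} {X C : Set Om} {γ : Om} (h : γ ∈ C) :
    (code e X C γ).1 = some (X ∩ Iio γ) := by
  simp [code, h]

theorem code_fst_of_not_mem {e : Om → Om → ℕ} {X C : Set Om} {γ : Om} (h : γ ∉ C) :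
    (code e X C γ).1 = none := by
  simp [code, h]

theorem code_snd {e : Om → Om → ℕ} {X C : Set Om} {γ : Om} :
    (code e X C γ).2 = e (nxt C γ) γ := rfl

theorem code_fst_iff {e : Om → Om → ℕ} {X C : Set Om} {γ : Om} :
    (code e X C γ).1 ≠ none ↔ γ ∈ C := by
  by_cases h : γ ∈ C
  · simp [code_fst_of_mem h, h]
  · simp [code_fst_of_not_mem h, h]

/-- good pairs -/
def Good (N : Om → Set (Set Om)) (p : Set Om × Set Om) : Prop :=
  IsClub p.2 ∧ ∀ δ ∈ p.2, p.1 ∩ Iio δ ∈ N δ ∧ p.2 ∩ Iio δ ∈ N δ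

/-- a nonempty initial part of a club has a maximum -/
theorem exists_max {C : Set Om} (hC : IsClub C) {α : Om} (h : (C ∩ Iic α).Nonempty) :
    ∃ β ∈ C, β ≤ α ∧ ∀ c ∈ C, c ≤ α → c ≤ β := by
  obtain ⟨c0, hc0, hc0α⟩ := h
  obtain ⟨u, hu, hmin⟩ := Om.least (S := {u | ∀ c ∈ C, c ≤ α → c ≤ u}) ⟨α, fun c _ h => h⟩
  have huα : u ≤ α := hmin α fun c _ h => h
  refine ⟨u, ?_, huα, hu⟩
  by_contra huC
  apply huC
  have hlt : ∀ c ∈ C, c ≤ α → c < u := by
    intro c hc hcα
    refine lt_of_le_of_ne (hu c hc hcα) ?_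
    rintro rfl
    exact huC hc
  refine hC.2 u ⟨c0, hlt c0 hc0 hc0α⟩ fun a ha => ?_
  by_contra hno
  push Not at hno
  refine absurd (hmin a fun c hc hcα => ?_) (not_le.2 ha)
  by_contra hac
  push Not at hac
  exact absurd (hlt c hc hcα) (not_lt.2 (hno c hc hac))

section

variable {N : Om → Set (Set Om)} {e : Om → Om → ℕ}

/-- the countable description of the restrictions of codes -/
noncomputable def desc (e : Om → Om → ℕ) (α β : Om) (A B : Set Om) (ε : Om → ℕ) :
    Om → Option (Set Om) × ℕ := by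
  classical
  exact fun γ =>
    if γ < α then
      (if γ < β then (if γ ∈ B then some (A ∩ Iio γ) else none, e (nxt (insert β B) γ) γ)
        else (if γ = β then some A else none, ε γ))
    else default

theorem countable_levels (hN : ∀ δ, (N δ).Countable)
    (he : ∀ α, {g : Om → ℕ | ∃ η, α ≤ η ∧ g = trunc (e η) α}.Countable) (α : Om) :
    {s : Om → Option (Set Om) × ℕ | ∃ F ∈ {F | ∃ p, Good N p ∧ F = code e p.1 p.2},
      s = res F α}.Countable := by
  classical
  let E := {g : Om → ℕ | ∃ η, α ≤ η ∧ g = trunc (e η) α}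
  have hE : E.Countable := he α
  have hbig : (((fun ε : Om → ℕ => fun γ => ((none : Option (Set Om)), ε γ)) '' E) ∪
      ⋃ β ∈ Iic α, (fun q : (Set Om × Set Om) × (Om → ℕ) => desc e α β q.1.1 q.1.2 q.2) ''
        ((N β ×ˢ N β) ×ˢ E)).Countable := by
    refine (hE.image _).union (Set.Countable.biUnion (Om.iic α) fun β _ => ?_)
    exact (((hN β).prod (hN β)).prod hE).image _
  refine hbig.mono ?_
  rintro s ⟨F, ⟨⟨X, C⟩, ⟨hC, hg⟩, rfl⟩, rfl⟩
  simp only at hC hg ⊢
  have hη := nxt_spec hC.1 α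
  by_cases hne : (C ∩ Iic α).Nonempty
  · right
    obtain ⟨β, hβC, hβα, hβmax⟩ := exists_max hC hne
    refine mem_iUnion₂.2 ⟨β, hβα, ⟨⟨X ∩ Iio β, C ∩ Iio β⟩, trunc (e (nxt C α)) α⟩,
      ⟨⟨(hg β hβC).1, (hg β hβC).2⟩, nxt C α, hη.2.1.le, rfl⟩, ?_⟩
    simp only
    funext γ
    by_cases hγ : γ < α
    · rw [res_of_lt hγ]
      simp only [desc]
      rw [if_pos hγ]
      by_cases hγβ : γ < β
      · rw [if_pos hγβ]
        have hn : nxt (insert β (C ∩ Iio β)) γ = nxt C γ := by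
          obtain ⟨h1, h2, h3⟩ := nxt_spec hC.1 γ
          have h4 : nxt C γ ≤ β := h3 β hβC hγβ
          refine nxt_eq ?_ h2 ?_
          · rcases h4.lt_or_eq with h5 | h5
            · exact mem_insert_of_mem _ ⟨h1, h5⟩
            · rw [h5]
              exact mem_insert _ _
          · intro d hd hγd
            rcases hd with rfl | hd
            · exact h4
            · exact h3 d hd.1 hγd
        rw [hn]
        apply Prod.ext
        · simp only
          by_cases hγC : γ ∈ C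
          · rw [code_fst_of_mem hγC, if_pos ⟨hγC, hγβ⟩]
            congr 1
            ext ξ
            constructor
            · rintro ⟨⟨h1, _⟩, h3⟩
              exact ⟨h1, h3⟩
            · rintro ⟨h1, h3⟩
              exact ⟨⟨h1, lt_trans (mem_Iio.1 h3) hγβ⟩, h3⟩
          · rw [code_fst_of_not_mem hγC, if_neg fun h => hγC h.1]
        · rfl
      · rw [if_neg hγβ]
        have hβγ : β ≤ γ := not_lt.1 hγβ
        have hn : nxt C γ = nxt C α := by
          refine nxt_eq hη.1 (hγ.trans hη.2.1) fun d hd hγd => ?_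
          refine hη.2.2 d hd ?_
          by_contra hdα
          exact absurd (hβγ.trans_lt hγd) (not_lt.2 (hβmax d hd (not_lt.1 hdα)))
        apply Prod.ext
        · simp only
          by_cases hγβ' : γ = β
          · subst hγβ'
            rw [code_fst_of_mem hβC, if_pos rfl]
          · have : γ ∉ C := fun hγC => hγβ' (le_antisymm (hβmax γ hγC hγ.le) hβγ)
            rw [code_fst_of_not_mem this, if_neg hγβ']
        · simp only
          rw [code_snd, hn, trunc_of_lt hγ]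
    · rw [res_of_le (not_lt.1 hγ)]
      simp only [desc]
      rw [if_neg hγ]
  · left
    refine ⟨trunc (e (nxt C α)) α, ⟨nxt C α, hη.2.1.le, rfl⟩, ?_⟩
    have hno : ∀ d ∈ C, α < d := by
      intro d hd
      by_contra h
      exact hne ⟨d, hd, not_lt.1 h⟩
    funext γ
    by_cases hγ : γ < α
    · rw [res_of_lt hγ]
      have hn : nxt C γ = nxt C α :=
        nxt_eq hη.1 (hγ.trans hη.2.1) fun d hd _ => hη.2.2 d hd (hno d hd)
      have hγC : γ ∉ C := fun h => absurd (hno γ h) (not_lt.2 hγ.le)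
      apply Prod.ext
      · rw [code_fst_of_not_mem hγC]
      · simp only
        rw [code_snd, hn, trunc_of_lt hγ]
    · rw [res_of_le (not_lt.1 hγ)]
      simp only
      rw [trunc_of_le (not_lt.1 hγ)]
      rfl

end

end MP_d9d638_lc
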