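import Pool.Agent.Lib.MP_d9d638_lc.Backward

namespace MP_d9d638_lc

open Set Cardinal Ordinal

section

variable {N : Om → Set (Set Om)} {e : Om → Om → ℕ}

/-- the set read off a code -/
def readX (G : Om → Option (Set Om) × ℕ) : Set Om :=
  {ξ | ∃ γ, ξ < γ ∧ ∃ S, (G γ).1 = some S ∧ ξ ∈ S}

theorem readX_code {X C : Set Om} (hC : ∀ a : Om, ∃ c ∈ C, a < c) :
    readX (code e X C) = X := by
  ext ξ
  constructor
  · rintro ⟨γ, hγ, S, hS, hξ⟩
    have hγC : γ ∈ C := by
      rw [← code_fst_iff (e := e) (X := X), hS]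
      simp
    rw [code_fst_of_mem hγC] at hS
    obtain rfl := Option.some.inj hS
    exact hξ.1
  · intro hξ
    obtain ⟨γ, hγC, hγ⟩ := hC ξ
    exact ⟨γ, hγ, X ∩ Iio γ, code_fst_of_mem hγC, hξ, hγ⟩

theorem closed_family
    (he : ∀ β m, {ξ | ξ < β ∧ e β ξ ≤ m}.Finite) (G : Om → Option (Set Om) × ℕ)
    (hG : ∀ α, ∃ F ∈ {F | ∃ p, Good N p ∧ F = code e p.1 p.2}, res F α = res G α) :
    G ∈ {F | ∃ p, Good N p ∧ F = code e p.1 p.2} := by
  have hG' : ∀ α, ∃ p, Good N p ∧ ∀ γ < α, code e p.1 p.2 γ = G γ := by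
    intro α
    obtain ⟨F, ⟨p, hp, rfl⟩, h⟩ := hG α
    exact ⟨p, hp, res_eq_iff.1 h⟩
  choose p hp hpG using hG'
  let C : Set Om := {γ | (G γ).1 ≠ none}
  have hCmem : ∀ α γ, γ < α → (γ ∈ C ↔ γ ∈ (p α).2) := by
    intro α γ hγ
    change (G γ).1 ≠ none ↔ _
    rw [← hpG α γ hγ]
    exact code_fst_iff
  have hfst : ∀ α γ, γ < α → γ ∈ C → (G γ).1 = some ((p α).1 ∩ Iio γ) := by
    intro α γ hγ hγC
    rw [← hpG α γ hγ]
    exact code_fst_of_mem ((hCmem α γ hγ).1 hγC)
  let X : Set Om := readX G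
  have hX : ∀ δ ∈ C, ∀ α, δ < α → X ∩ Iio δ = (p α).1 ∩ Iio δ := by
    intro δ hδ α hα
    ext ξ
    constructor
    · rintro ⟨⟨γ, hγ, S, hS, hξ⟩, hξδ⟩
      refine ⟨?_, hξδ⟩
      have hγC : γ ∈ C := by
        change (G γ).1 ≠ none
        rw [hS]
        simp
      obtain ⟨α', h1, h2⟩ := Om.exists_gt2 γ δ
      have h3 := hfst α' γ h1 hγC
      have h4 := hfst α' δ h2 hδ
      have h5 := hfst α δ hα hδ
      rw [hS] at h3
      have h6 := Option.some.inj h3
      rw [h6] at hξ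
      rw [h4] at h5
      have h7 := Option.some.inj h5
      have : ξ ∈ (p α').1 ∩ Iio δ := ⟨hξ.1, hξδ⟩
      rw [h7] at this
      exact this.1
    · rintro ⟨h1, h2⟩
      exact ⟨⟨δ, h2, _, hfst α δ hα hδ, h1, h2⟩, h2⟩
  have hClub : IsClub C := by
    constructor
    · -- unbounded
      by_contra hno
      push Not at hno
      obtain ⟨a, ha⟩ := hno
      -- above `a` the second coordinate is finite-to-one
      have hfin : ∀ m α, {ξ | a < ξ ∧ ξ < α ∧ (G ξ).2 ≤ m}.Finite := by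
        intro m α
        have hCα := (hp α).1.1
        refine (he (nxt (p α).2 a) m).subset ?_
        rintro ξ ⟨h1, h2, h3⟩
        have hbig : ∀ d ∈ (p α).2, a < d → α ≤ d := by
          intro d hd had
          by_contra hlt
          push Not at hlt
          exact absurd had (not_lt.2 (ha d ((hCmem α d hlt).2 hd)))
        obtain ⟨n1, n2, n3⟩ := nxt_spec hCα a
        have hn : nxt (p α).2 ξ = nxt (p α).2 a := by
          refine nxt_eq n1 ?_ ?_
          · exact h2.trans_le (hbig _ n1 n2)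
          · intro d hd hξd
            exact n3 d hd (h1.trans hξd)
        refine ⟨?_, ?_⟩
        · exact h2.trans_le (hbig _ n1 n2)
        · rw [← hpG α ξ h2, code_snd, hn] at h3
          exact h3
      have hfin2 : ∀ m, {ξ | a < ξ ∧ (G ξ).2 ≤ m}.Finite := by
        intro m
        by_contra hinf
        have hinf' : {ξ | a < ξ ∧ (G ξ).2 ≤ m}.Infinite := hinf
        let j := hinf'.natEmbedding
        obtain ⟨α, hα⟩ := Om.bdd (fun n => (j n).1)
        have hsub : range (fun n => (j n).1) ⊆ {ξ | a < ξ ∧ ξ < α ∧ (G ξ).2 ≤ m} := by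
          rintro _ ⟨n, rfl⟩
          exact ⟨(j n).2.1, hα n, (j n).2.2⟩
        have hr : (range (fun n => (j n).1)).Infinite :=
          Set.infinite_range_of_injective (Subtype.val_injective.comp j.injective)
        exact hr ((hfin m α).subset hsub)
      apply Om.not_countable_Ioi a
      have : Ioi a ⊆ ⋃ m : ℕ, {ξ | a < ξ ∧ (G ξ).2 ≤ m} := by
        intro ξ hξ
        exact mem_iUnion.2 ⟨(G ξ).2, hξ, le_rfl⟩
      exact (countable_iUnion fun m => (hfin2 m).countable).mono this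
    · -- closed
      intro δ hδ hlim
      obtain ⟨α, hα⟩ := Om.exists_gt δ
      refine (hCmem α δ hα).2 ((hp α).1.2 δ hδ fun a haδ => ?_)
      obtain ⟨c, hc, h1, h2⟩ := hlim a haδ
      exact ⟨c, (hCmem α c (h2.trans hα)).1 hc, h1, h2⟩
  refine ⟨(X, C), ⟨hClub, fun δ hδ => ?_⟩, ?_⟩
  · simp only at hδ ⊢
    obtain ⟨α, hα⟩ := Om.exists_gt δ
    have hδ' : δ ∈ (p α).2 := (hCmem α δ hα).1 hδ
    obtain ⟨g1, g2⟩ := (hp α).2 δ hδ'
    rw [hX δ hδ α hα]
    refine ⟨g1, ?_⟩
    have : C ∩ Iio δ = (p α).2 ∩ Iio δ := by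
      ext ξ
      constructor
      · rintro ⟨h1, h2⟩
        exact ⟨(hCmem α ξ (lt_trans h2 hα)).1 h1, h2⟩
      · rintro ⟨h1, h2⟩
        exact ⟨(hCmem α ξ (lt_trans h2 hα)).2 h1, h2⟩
    rw [this]
    exact g2
  · simp only
    funext γ
    obtain ⟨n1, n2, n3⟩ := nxt_spec hClub.1 γ
    obtain ⟨α, hα⟩ := Om.exists_gt (nxt C γ)
    have hγα : γ < α := n2.trans hα
    apply Prod.ext
    · by_cases hγ : γ ∈ C
      · rw [code_fst_of_mem hγ, hfst α γ hγα hγ, hX γ hγ α hγα]
      · rw [code_fst_of_not_mem hγ]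
        by_contra h
        exact hγ h
    · rw [code_snd, ← hpG α γ hγα, code_snd]
      have hn : nxt (p α).2 γ = nxt C γ := by
        refine nxt_eq ((hCmem α _ hα).1 n1) n2 fun d hd hγd => ?_
        rcases lt_or_ge d α with h | h
        · exact n3 d ((hCmem α d h).2 hd) hγd
        · exact hα.le.trans h
      rw [hn]

end

/-- diamond plus gives a strong Kurepa tree -/
theorem exists_strong_of_diamondPlus (h : DiamondPlus) :
    ∃ (T : Type) (_ : PartialOrder T), IsStrongKurepa T := by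
  classical
  obtain ⟨N, hN, hX⟩ := h
  obtain ⟨e, he1, he2⟩ := exists_traces
  refine ⟨SegTree {F | ∃ p, Good N p ∧ F = code e p.1 p.2}, inferInstance, ?_⟩
  refine isStrongKurepa_segTree (countable_levels (fun δ => (hN δ).1) he2)
    (closed_family he1) (fun G => fun ξ => decide (ξ ∈ readX G)) ?_ ?_
  · rintro G ⟨⟨X, C⟩, ⟨hC, -⟩, rfl⟩ α
    simp only at hC ⊢
    obtain ⟨c, hc, hαc⟩ := hC.1 α
    obtain ⟨β, hβ⟩ := Om.exists_gt c
    refine ⟨β, ?_⟩
    rintro G' ⟨⟨X', C'⟩, ⟨hC', -⟩, rfl⟩ hres γ hγ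
    simp only at hC' hres ⊢
    rw [readX_code hC.1, readX_code hC'.1]
    have h1 := res_eq_iff.1 hres c hβ
    have h2 : c ∈ C' := by
      rw [← code_fst_iff (e := e) (X := X'), h1, code_fst_iff]
      exact hc
    have h3 := congrArg Prod.fst h1
    rw [code_fst_of_mem hc, code_fst_of_mem h2] at h3
    have h4 := Option.some.inj h3
    have h5 : γ ∈ X' ↔ γ ∈ X := by
      constructor
      · intro h
        have : γ ∈ X' ∩ Iio c := ⟨h, hγ.trans hαc⟩
        rw [h4] at this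
        exact this.1
      · intro h
        have : γ ∈ X ∩ Iio c := ⟨h, hγ.trans hαc⟩
        rw [← h4] at this
        exact this.1
    exact decide_eq_decide.2 h5
  · intro g
    obtain ⟨C, hC, hg⟩ := hX {ξ | g ξ = true}
    refine ⟨code e {ξ | g ξ = true} C, ⟨({ξ | g ξ = true}, C), ⟨hC, hg⟩, rfl⟩, ?_⟩
    funext ξ
    rw [readX_code hC.1]
    simp

end MP_d9d638_lc
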