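import Mathlib

/-!
# Strong Kurepa trees and diamond plus: definitions (MP_d9d638_lc)

All definitions follow the problem file.
-/

namespace MP_d9d638_lc

open Set Cardinal Ordinal

/-- The first uncountable ordinal as a well-ordered type (its elements are the countable
ordinals). -/
abbrev Om : Type := (Ordinal.omega 1).ToType

/-- A node `t` of a tree is on level `α`: its set of predecessors has order type `α`. -/
def AtLevel {T : Type} [PartialOrder T] (α : Om) (t : T) : Prop :=
  Nonempty (Iio t ≃o Iio α)

/-- An `ω₁`-tree: a partial order in which the predecessors of every node are well-ordered, of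
height `ω₁` (every node is on some countable level, every countable level is nonempty), all of
whose levels are countable. -/
structure IsOmega1Tree (T : Type) [PartialOrder T] : Prop where
  wo : ∀ t : T, IsWellOrder (Iio t) (· < ·)
  lev : ∀ t : T, ∃ α : Om, AtLevel α t
  height : ∀ α : Om, ∃ t : T, AtLevel α t
  countable : ∀ α : Om, {t : T | AtLevel α t}.Countable

/-- A cofinal branch: a linearly ordered, downward closed subset that meets every level. -/
def IsBranch {T : Type} [PartialOrder T] (b : Set T) : Prop :=
  IsChain (· ≤ ·) b ∧ IsLowerSet b ∧ ∀ α : Om, ∃ t ∈ b, AtLevel α t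

/-- The set `[T]` of cofinal branches. -/
def Branch (T : Type) [PartialOrder T] : Type := {b : Set T // IsBranch b}

/-- The cone topology on `[T]`, generated by the sets `{b : t ∈ b}`, `t ∈ T`. -/
instance (T : Type) [PartialOrder T] : TopologicalSpace (Branch T) :=
  TopologicalSpace.generateFrom {U | ∃ t : T, U = {b : Branch T | t ∈ b.1}}

/-- The set `2^{ω₁}` of all functions from `ω₁` to `2`. -/
def Two : Type := Om → Bool

/-- The topology of `2^{ω₁}` generated by the sets `{g : s ⊆ g}`, where `s` is the restriction of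
a function to a countable ordinal `α`. -/
instance : TopologicalSpace Two :=
  TopologicalSpace.generateFrom
    {U | ∃ (α : Om) (s : Om → Bool), U = {g : Two | ∀ β < α, g β = s β}}

/-- A Kurepa tree: an `ω₁`-tree with at least `ℵ₂` cofinal branches. -/
def IsKurepa (T : Type) [PartialOrder T] : Prop :=
  IsOmega1Tree T ∧ Cardinal.aleph 2 ≤ Cardinal.mk (Branch T)

/-- A strong Kurepa tree: a Kurepa tree `T` with a continuous surjection from `[T]` onto
`2^{ω₁}`. -/
def IsStrongKurepa (T : Type) [PartialOrder T] : Prop :=
  IsKurepa T ∧ ∃ f : Branch T → Two, Continuous f ∧ Function.Surjective f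

/-- A club of `ω₁`: unbounded, and closed under suprema of its nonempty bounded subsets. -/
def IsClub (C : Set Om) : Prop :=
  (∀ a : Om, ∃ c ∈ C, a < c) ∧
    ∀ δ : Om, (∃ a, a < δ) → (∀ a < δ, ∃ c ∈ C, a < c ∧ c < δ) → δ ∈ C

/-- Jensen's principle diamond plus: there are countable families `N δ` of subsets of `δ`,
`δ < ω₁`, such that for every `X ⊆ ω₁` there is a club `C` with `X ∩ δ ∈ N δ` and
`C ∩ δ ∈ N δ` for all `δ ∈ C`. -/
def DiamondPlus : Prop :=
  ∃ N : Om → Set (Set Om), (∀ δ, (N δ).Countable ∧ ∀ A ∈ N δ, A ⊆ Iio δ) ∧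
    ∀ X : Set Om, ∃ C : Set Om, IsClub C ∧ ∀ δ ∈ C, X ∩ Iio δ ∈ N δ ∧ C ∩ Iio δ ∈ N δ

end MP_d9d638_lc
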