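import Pool.Agent.Lib.MP_d9d638_lc.TreeBasic

namespace MP_d9d638_lc

open Set Cardinal Ordinal

/-- closure points of a function `g : Om → Om` form an unbounded set -/
theorem exists_closure_point (g : Om → Om) (a : Om) :
    ∃ β : Om, a < β ∧ ∀ γ < β, g γ < β := by
  have hm : ∀ x : Om, ∃ y : Om, x < y ∧ ∀ γ ≤ x, g γ < y := by
    intro x
    obtain ⟨y, hy⟩ := Om.bdd_set (S := insert x (g '' Iic x)) (((Om.iic x).image g).insert x)
    exact ⟨y, hy x (mem_insert _ _), fun γ hγ => hy _ (mem_insert_of_mem _ ⟨γ, hγ, rfl⟩)⟩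
  choose m hm1 hm2 using hm
  have hne : {x : Om | ∀ n : ℕ, m^[n] a ≤ x}.Nonempty := by
    obtain ⟨u, hu⟩ := Om.bdd (fun n : ℕ => m^[n] a)
    exact ⟨u, fun n => (hu n).le⟩
  obtain ⟨β, hβ, hmin⟩ := Om.least hne
  refine ⟨β, ?_, fun γ hγ => ?_⟩
  · have h1 := hβ 1
    simp only [Function.iterate_one] at h1
    exact (hm1 a).trans_le h1
  · have h1 : ¬ ∀ n : ℕ, m^[n] a ≤ γ := fun h => absurd (hmin γ h) (not_le.2 hγ)
    push Not at h1
    obtain ⟨n, hn⟩ := h1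
    have h2 := hm2 (m^[n] a) γ hn.le
    have h3 := hβ (n + 1)
    rw [Function.iterate_succ_apply'] at h3
    exact h2.trans_le h3

theorem diamondPlus_of_strong {T : Type} [PartialOrder T] (hO : IsOmega1Tree T)
    (f : Branch T → Two) (hf : Continuous f) (hsurj : Function.Surjective f) :
    DiamondPlus := by
  choose h hh using hO.lev
  let Dec : T → Om → Prop := fun u γ =>
    ∀ b b' : Branch T, u ∈ b.1 → u ∈ b'.1 → ∀ β ≤ γ, f b β = f b' β
  let Xt : T → Set Om := fun t =>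
    {γ | γ < h t ∧ ∃ u < t, ∀ b : Branch T, u ∈ b.1 → f b γ = true}
  let Ct : T → Set Om := fun t =>
    {β | β < h t ∧ (∃ a, a < β) ∧ ∀ γ < β, ∃ u < t, h u < β ∧ Dec u γ}
  refine ⟨fun δ => Xt '' {t | AtLevel δ t} ∪ Ct '' {t | AtLevel δ t}, fun δ => ⟨?_, ?_⟩, ?_⟩
  · exact ((hO.countable δ).image _).union ((hO.countable δ).image _)
  · rintro A (⟨t, ht, rfl⟩ | ⟨t, ht, rfl⟩) γ hγ
    · rw [mem_Iio, AtLevel.unique ht (hh t)]
      exact hγ.1
    · rw [mem_Iio, AtLevel.unique ht (hh t)]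
      exact hγ.1
  · intro X
    classical
    obtain ⟨b, hb⟩ := hsurj (fun γ => decide (γ ∈ X))
    have hbX : ∀ γ, f b γ = true ↔ γ ∈ X := by
      intro γ
      rw [hb]
      exact decide_eq_true_iff
    refine ⟨{β | (∃ a, a < β) ∧ ∀ γ < β, ∃ u ∈ b.1, h u < β ∧ Dec u γ}, ⟨?_, ?_⟩, ?_⟩
    · -- unbounded
      intro a
      choose g hg1 hg2 using fun γ => exists_decide hf b γ
      obtain ⟨β, haβ, hβ⟩ := exists_closure_point (fun γ => h (g γ)) a
      refine ⟨β, ⟨⟨a, haβ⟩, fun γ hγ => ⟨g γ, hg1 γ, hβ γ hγ, ?_⟩⟩, haβ⟩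
      intro b1 b2 h1 h2 ξ hξ
      rw [hg2 γ b1 h1 ξ hξ, hg2 γ b2 h2 ξ hξ]
    · -- closed
      intro δ hδ hlim
      refine ⟨hδ, fun γ hγ => ?_⟩
      obtain ⟨c, hc, hγc, hcδ⟩ := hlim γ hγ
      obtain ⟨u, hu, hu1, hu2⟩ := hc.2 γ hγc
      exact ⟨u, hu, hu1.trans hcδ, hu2⟩
    · rintro δ ⟨-, hδ⟩
      obtain ⟨t, htb, ht⟩ := b.2.2.2 δ
      have hδt : δ = h t := AtLevel.unique ht (hh t)
      have hlt : ∀ u ∈ b.1, h u < δ → u < t := fun u hu hu' => b.2.lt_of_lt hu htb (hh u) ht hu'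
      have hmem : ∀ u, u < t → u ∈ b.1 := fun u hu => b.2.2.1 hu.le htb
      constructor
      · left
        refine ⟨t, ht, ?_⟩
        ext γ
        constructor
        · rintro ⟨h1, u, hu, h2⟩
          refine ⟨?_, by rw [mem_Iio, hδt]; exact h1⟩
          exact (hbX γ).1 (h2 b (hmem u hu))
        · rintro ⟨h1, h2⟩
          refine ⟨by rw [← hδt]; exact h2, ?_⟩
          obtain ⟨u, hu, hu1, hu2⟩ := hδ γ h2
          refine ⟨u, hlt u hu hu1, fun b' hb' => ?_⟩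
          rw [hu2 b' b hb' hu γ le_rfl]
          exact (hbX γ).2 h1
      · right
        refine ⟨t, ht, ?_⟩
        ext β
        constructor
        · rintro ⟨h1, h2, h3⟩
          refine ⟨⟨h2, fun γ hγ => ?_⟩, by rw [mem_Iio, hδt]; exact h1⟩
          obtain ⟨u, hu, hu1, hu2⟩ := h3 γ hγ
          exact ⟨u, hmem u hu, hu1, hu2⟩
        · rintro ⟨⟨h2, h3⟩, h1⟩
          refine ⟨by rw [← hδt]; exact h1, h2, fun γ hγ => ?_⟩
          obtain ⟨u, hu, hu1, hu2⟩ := h3 γ hγ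
          exact ⟨u, hlt u hu (hu1.trans h1), hu1, hu2⟩

end MP_d9d638_lc
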