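import Pool.Agent.Lib.MP_d9d638_lc.Defs

namespace MP_d9d638_lc

open Set Cardinal Ordinal

theorem Om.mk : Cardinal.mk Om = Cardinal.aleph 1 := by
  simp [Om, Cardinal.mk_toType]

theorem Om.uncountable : ¬ (univ : Set Om).Countable := by
  rw [← Cardinal.le_aleph0_iff_set_countable, Cardinal.mk_univ, Om.mk, not_le]
  exact Cardinal.aleph0_lt_aleph_one

theorem Om.iio (a : Om) : (Iio a).Countable := by
  rw [← Cardinal.le_aleph0_iff_set_countable]
  have h := Cardinal.mk_Iio_lt a (by rw [Om.mk, Ordinal.type_toType, Cardinal.ord_aleph])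
  rw [Om.mk, ← Cardinal.succ_aleph0] at h
  exact Order.lt_succ_iff.1 h

theorem Om.iic (a : Om) : (Iic a).Countable := by
  rw [← Iio_insert]
  exact (Om.iio a).insert a

/-- countable sets are bounded -/
theorem Om.bdd {ι : Type*} [Countable ι] (f : ι → Om) : ∃ u : Om, ∀ i, f i < u := by
  by_contra h
  push Not at h
  apply Om.uncountable
  have : (univ : Set Om) ⊆ ⋃ i, Iic (f i) := by
    intro u _
    obtain ⟨i, hi⟩ := h u
    exact mem_iUnion.2 ⟨i, hi⟩
  exact (countable_iUnion fun i => Om.iic (f i)).mono this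

theorem Om.bdd_set {S : Set Om} (hS : S.Countable) : ∃ u : Om, ∀ i ∈ S, i < u := by
  haveI := hS.to_subtype
  obtain ⟨u, hu⟩ := Om.bdd (fun i : S => i.1)
  exact ⟨u, fun i hi => hu ⟨i, hi⟩⟩

theorem Om.exists_gt (a : Om) : ∃ u : Om, a < u := by
  obtain ⟨u, hu⟩ := Om.bdd (fun _ : Unit => a)
  exact ⟨u, hu ()⟩

theorem Om.exists_gt2 (a b : Om) : ∃ u : Om, a < u ∧ b < u := by
  obtain ⟨u, hu⟩ := Om.exists_gt (max a b)
  exact ⟨u, (le_max_left _ _).trans_lt hu, (le_max_right _ _).trans_lt hu⟩

/-- uncountable intervals -/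
theorem Om.not_countable_Ioi (a : Om) : ¬ (Ioi a).Countable := by
  intro h
  apply Om.uncountable
  have : (univ : Set Om) ⊆ Iic a ∪ Ioi a := by
    intro u _
    rcases le_or_gt u a with h | h
    · exact Or.inl h
    · exact Or.inr h
  exact ((Om.iic a).union h).mono this

/-- the successor-like property: there is a least element above `a` -/
theorem Om.least {S : Set Om} (hS : S.Nonempty) : ∃ m ∈ S, ∀ x ∈ S, m ≤ x :=
  ⟨wellFounded_lt.min S hS, wellFounded_lt.min_mem S hS, fun x hx => wellFounded_lt.min_le hx⟩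

theorem Om.infinite : Infinite Om := by
  by_contra h
  rw [not_infinite_iff_finite] at h
  exact Om.uncountable (Set.countable_univ)

instance : Nonempty Om := by
  haveI := Om.infinite
  infer_instance

/-- order isomorphic initial segments are equal -/
theorem Om.iio_iso {a b : Om} (e : Iio a ≃o Iio b) : a = b := by
  have key : ∀ a b : Om, (Iio a ≃o Iio b) → ¬ a < b := by
    intro a b e hab
    -- `a ∈ Iio b`, consider `e.symm`
    let f : Iio b → Iio b := fun x => ⟨(e.symm x).1, (e.symm x).2.trans hab⟩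
    have hf : StrictMono f := by
      intro x y hxy
      exact Subtype.mk_lt_mk.2 (Subtype.coe_lt_coe.2 (e.symm.strictMono hxy))
    have h1 := hf.le_apply (x := ⟨a, hab⟩)
    have h2 : a ≤ (e.symm ⟨a, hab⟩).1 := h1
    exact absurd (e.symm ⟨a, hab⟩).2 (not_lt.2 h2)
  rcases lt_trichotomy a b with h | h | h
  · exact absurd h (key a b e)
  · exact h
  · exact absurd h (key b a e.symm)

end MP_d9d638_lc
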