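import Pool.Agent.Lib.MP_d9d638_lc.Pieces

namespace MP_d9d638_lc

open Set Cardinal Ordinal

theorem exists_index {T : Type} [PartialOrder T] (hO : IsOmega1Tree T) :
    ∃ k : T → Om, Function.Injective k := by
  choose h hh using hO.lev
  have h1 : ∀ α : Om, ∃ φ : T → ℕ, InjOn φ {t | AtLevel α t} :=
    fun α => Set.countable_iff_exists_injOn.1 (hO.countable α)
  choose φ hφ using h1
  obtain ⟨j, hj⟩ := exists_pairing
  have := Om.infinite
  let ν : ℕ ↪ Om := Infinite.natEmbedding Om
  refine ⟨fun t => j (h t, ν (φ (h t) t)), ?_⟩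
  intro s t hst
  have h2 := hj hst
  have h3 : h s = h t := congrArg Prod.fst h2
  have h4 : φ (h s) s = φ (h t) t := ν.injective (congrArg Prod.snd h2)
  rw [h3] at h4
  refine hφ (h t) ?_ (hh t) h4
  rw [← h3]
  exact hh s

theorem nwd {T : Type} [PartialOrder T] (hO : IsOmega1Tree T) {f : Branch T → Two}
    (hf : Continuous f) (hs : Function.Surjective f) :
    ∃ F : Set (Branch T), IsClosed F ∧ interior F = ∅ ∧
      ∃ g : F → Two, Continuous g ∧ Function.Surjective g := by
  classical
  obtain ⟨k, hk⟩ := exists_index hO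
  obtain ⟨j, hj⟩ := exists_pairing
  obtain ⟨c0, c1, hc⟩ : ∃ c0 c1 : Om, c0 ≠ c1 := by
    obtain ⟨u, hu⟩ := Om.exists_gt (Classical.arbitrary Om)
    exact ⟨_, _, hu.ne⟩
  have hb0 : Nonempty (Branch T) := by
    obtain ⟨b, -⟩ := hs (fun _ => true)
    exact ⟨b⟩
  -- choose a branch through every node that has one
  let B : T → Branch T := fun t =>
    if h : ∃ b : Branch T, t ∈ b.1 then h.choose else Classical.choice hb0
  have hB : ∀ t, (∃ b : Branch T, t ∈ b.1) → t ∈ (B t).1 := by
    intro t h
    simp only [B]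
    rw [dif_pos h]
    exact h.choose_spec
  let ev : T → Om := fun t => j (c0, k t)
  let od : Om → Om := fun x => j (c1, x)
  have hev : Function.Injective ev := fun s t h => hk (congrArg Prod.snd (hj h))
  have hod : Function.Injective od := fun s t h => congrArg Prod.snd (hj h)
  have heo : ∀ t x, ev t ≠ od x := fun t x h => hc (congrArg Prod.fst (hj h))
  refine ⟨{b | ∀ t, f b (ev t) ≠ f (B t) (ev t)}, ?_, ?_, ?_⟩
  · rw [← isOpen_compl_iff, isOpen_iff_forall_mem_open]
    intro b hb
    have hb' : ∃ t, f b (ev t) = f (B t) (ev t) := by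
      by_contra h
      push Not at h
      exact hb h
    obtain ⟨t, ht⟩ := hb'
    obtain ⟨u, hu, h⟩ := exists_decide hf b (ev t)
    refine ⟨{b' | u ∈ b'.1}, fun b' hb' hF => ?_, isOpen_cone u, hu⟩
    exact hF t (by rw [h b' hb' _ le_rfl, ht])
  · rw [Set.eq_empty_iff_forall_notMem]
    intro b hb
    obtain ⟨u, hu, h⟩ := exists_cone isOpen_interior hb
    have h1 : B u ∈ {b | ∀ t, f b (ev t) ≠ f (B t) (ev t)} :=
      interior_subset (h (hB u ⟨b, hu⟩))
    exact h1 u rfl
  · refine ⟨fun b => fun x => f b.1 (od x), ?_, ?_⟩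
    · apply continuous_two
      intro b α
      obtain ⟨γ, hγ⟩ := Om.bdd_set (S := od '' Iio α) ((Om.iio α).image _)
      obtain ⟨t, ht, h⟩ := exists_decide hf b.1 γ
      refine ⟨Subtype.val ⁻¹' {b' | t ∈ b'.1}, (isOpen_cone t).preimage continuous_subtype_val,
        ht, ?_⟩
      intro y hy β hβ
      exact h y.1 hy _ (hγ _ ⟨β, hβ, rfl⟩).le
    · intro y
      let G : Two := fun z =>
        if h : ∃ t, ev t = z then !(f (B h.choose) z)
        else if h : ∃ x, od x = z then y h.choose else true
      have hG1 : ∀ t, G (ev t) = !(f (B t) (ev t)) := by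
        intro t
        have h : ∃ t', ev t' = ev t := ⟨t, rfl⟩
        have h2 : h.choose = t := hev h.choose_spec
        simp only [G]
        rw [dif_pos h, h2]
      have hG2 : ∀ x, G (od x) = y x := by
        intro x
        have h : ¬ ∃ t', ev t' = od x := fun ⟨t, ht⟩ => heo t x ht
        have h1 : ∃ x', od x' = od x := ⟨x, rfl⟩
        have h2 : h1.choose = x := hod h1.choose_spec
        simp only [G]
        rw [dif_neg h, dif_pos h1, h2]
      obtain ⟨b, hb⟩ := hs G
      refine ⟨⟨b, fun t => ?_⟩, ?_⟩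
      · rw [hb, hG1]
        simp
      · funext x
        simp only
        rw [hb, hG2]

end MP_d9d638_lc
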