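import Pool.Agent.Lib.MP_d9d638_lc.TreeBasic

namespace MP_d9d638_lc

open Set Cardinal Ordinal

theorem exists_pairing : ∃ j : Om × Om → Om, Function.Injective j := by
  have h : Cardinal.mk (Om × Om) = Cardinal.mk Om := by
    rw [← Cardinal.mul_def]
    apply Cardinal.mul_eq_self
    rw [Om.mk]
    exact Cardinal.aleph0_le_aleph 1
  obtain ⟨j⟩ := Cardinal.eq.1 h
  exact ⟨j, j.injective⟩

theorem pieces {T : Type} [PartialOrder T] {f : Branch T → Two} (hf : Continuous f)
    (hs : Function.Surjective f) (K : Om → Set (Branch T)) (hK : ⋃ i, K i = Set.univ) :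
    ∃ i, ∃ g : K i → Two, Continuous g ∧ Function.Surjective g := by
  obtain ⟨j, hj⟩ := exists_pairing
  by_contra hno
  push Not at hno
  have h1 : ∀ i, ¬ Function.Surjective (fun b : K i => ((fun x => f b.1 (j (i, x))) : Two)) := by
    intro i
    apply hno i
    apply continuous_two
    intro b α
    obtain ⟨γ, hγ⟩ := Om.bdd_set (S := (fun x => j (i, x)) '' Iio α) ((Om.iio α).image _)
    obtain ⟨t, ht, h⟩ := exists_decide hf b.1 γ
    refine ⟨Subtype.val ⁻¹' {b' | t ∈ b'.1}, (isOpen_cone t).preimage continuous_subtype_val,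
      ht, ?_⟩
    intro y hy β hβ
    exact h y.1 hy _ (hγ _ ⟨β, hβ, rfl⟩).le
  have h2 : ∀ i, ∃ g : Two, ∀ b : K i, ((fun x => f b.1 (j (i, x))) : Two) ≠ g := by
    intro i
    have := h1 i
    rw [Function.Surjective] at this
    push Not at this
    exact this
  choose g hg using h2
  classical
  let G : Two := fun y => if h : ∃ p : Om × Om, j p = y then g h.choose.1 h.choose.2 else true
  have hG : ∀ i x, G (j (i, x)) = g i x := by
    intro i x
    have h : ∃ p : Om × Om, j p = j (i, x) := ⟨_, rfl⟩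
    have h3 : h.choose = (i, x) := hj h.choose_spec
    simp only [G]
    rw [dif_pos h, h3]
  obtain ⟨b, hb⟩ := hs G
  obtain ⟨i, hi⟩ : ∃ i, b ∈ K i := by
    have : b ∈ ⋃ i, K i := by
      rw [hK]
      exact Set.mem_univ _
    exact mem_iUnion.1 this
  apply hg i ⟨b, hi⟩
  funext x
  simp only
  rw [hb, hG]

end MP_d9d638_lc
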