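import Pool.Agent.Lib.MP_d9d638_lc.TreeBasic

/-!
The tree of all restrictions of the members of a family of functions on `ω₁`.
-/

namespace MP_d9d638_lc

open Set Cardinal Ordinal

section

variable {V : Type} [Inhabited V]

/-- restriction of a function to `α` (default value outside) -/
noncomputable def res (F : Om → V) (α : Om) : Om → V := by
  classical
  exact fun γ => if γ < α then F γ else default

theorem res_of_lt {F : Om → V} {α γ : Om} (h : γ < α) : res F α γ = F γ := by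
  simp [res, h]

theorem res_of_le {F : Om → V} {α γ : Om} (h : α ≤ γ) : res F α γ = default := by
  simp [res, not_lt.2 h]

theorem res_eq_iff {F G : Om → V} {α : Om} : res F α = res G α ↔ ∀ γ < α, F γ = G γ := by
  constructor
  · intro h γ hγ
    have := congrFun h γ
    rwa [res_of_lt hγ, res_of_lt hγ] at this
  · intro h
    funext γ
    by_cases hγ : γ < α
    · rw [res_of_lt hγ, res_of_lt hγ]
      exact h γ hγ
    · rw [res_of_le (not_lt.1 hγ), res_of_le (not_lt.1 hγ)]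

theorem res_res {F : Om → V} {α β : Om} (h : α ≤ β) : res (res F β) α = res F α := by
  rw [res_eq_iff]
  intro γ hγ
  rw [res_of_lt (hγ.trans_le h)]

/-- the tree of restrictions of members of `𝓕` -/
def SegTree (𝓕 : Set (Om → V)) : Type := {p : Om × (Om → V) // ∃ F ∈ 𝓕, p.2 = res F p.1}

variable {𝓕 : Set (Om → V)}

theorem SegTree.res_self (p : SegTree 𝓕) : res p.1.2 p.1.1 = p.1.2 := by
  obtain ⟨F, -, hF⟩ := p.2
  rw [hF]
  exact res_res le_rfl

noncomputable instance : PartialOrder (SegTree 𝓕) where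
  le p q := p.1.1 ≤ q.1.1 ∧ p.1.2 = res q.1.2 p.1.1
  le_refl p := ⟨le_rfl, p.res_self.symm⟩
  le_trans p q r h1 h2 := by
    refine ⟨h1.1.trans h2.1, ?_⟩
    rw [h1.2, h2.2]
    exact res_res h1.1
  le_antisymm p q h1 h2 := by
    have h3 : p.1.1 = q.1.1 := le_antisymm h1.1 h2.1
    apply Subtype.ext
    apply Prod.ext h3
    rw [h1.2, h3]
    exact q.res_self

theorem SegTree.le_def {p q : SegTree 𝓕} :
    p ≤ q ↔ p.1.1 ≤ q.1.1 ∧ p.1.2 = res q.1.2 p.1.1 := Iff.rfl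

theorem SegTree.lt_def {p q : SegTree 𝓕} :
    p < q ↔ p.1.1 < q.1.1 ∧ p.1.2 = res q.1.2 p.1.1 := by
  rw [lt_iff_le_not_ge]
  constructor
  · rintro ⟨h1, h2⟩
    refine ⟨lt_of_le_of_ne h1.1 fun h => h2 ⟨h.ge, ?_⟩, h1.2⟩
    rw [h1.2, ← h, res_res le_rfl, h]
    exact q.res_self.symm
  · rintro ⟨h1, h2⟩
    exact ⟨⟨h1.le, h2⟩, fun h3 => absurd h3.1 (not_le.2 h1)⟩

/-- restriction of a node -/
noncomputable def SegTree.cut (p : SegTree 𝓕) (β : Om) (hβ : β ≤ p.1.1) : SegTree 𝓕 :=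
  ⟨(β, res p.1.2 β), by
    obtain ⟨F, hF, h⟩ := p.2
    refine ⟨F, hF, ?_⟩
    simp only
    rw [h]
    exact res_res hβ⟩

noncomputable def SegTree.iso (p : SegTree 𝓕) : Iio p ≃o Iio p.1.1 where
  toFun q := ⟨q.1.1.1, (SegTree.lt_def.1 q.2).1⟩
  invFun β := ⟨p.cut β.1 (le_of_lt β.2), SegTree.lt_def.2 ⟨β.2, rfl⟩⟩
  left_inv q := by
    apply Subtype.ext
    apply Subtype.ext
    apply Prod.ext
    · rfl
    · exact (SegTree.lt_def.1 q.2).2.symm
  right_inv β := rfl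
  map_rel_iff' := by
    intro q r
    constructor
    · intro h
      have h' : q.1.1.1 ≤ r.1.1.1 := h
      refine ⟨h', ?_⟩
      rw [(SegTree.lt_def.1 q.2).2, (SegTree.lt_def.1 r.2).2]
      exact (res_res h').symm
    · intro h
      exact h.1

theorem SegTree.atLevel_iff {α : Om} {p : SegTree 𝓕} : AtLevel α p ↔ p.1.1 = α := by
  have h : AtLevel p.1.1 p := ⟨p.iso⟩
  constructor
  · intro h'
    exact h.unique h'
  · rintro rfl
    exact h

theorem SegTree.isOmega1Tree (hne : 𝓕.Nonempty)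
    (hc : ∀ α, {s : Om → V | ∃ F ∈ 𝓕, s = res F α}.Countable) :
    IsOmega1Tree (SegTree 𝓕) where
  wo p := (p.iso.toRelIsoLT.toRelEmbedding).isWellOrder
  lev p := ⟨p.1.1, ⟨p.iso⟩⟩
  height α := by
    obtain ⟨F, hF⟩ := hne
    exact ⟨⟨(α, res F α), F, hF, rfl⟩, SegTree.atLevel_iff.2 rfl⟩
  countable α := by
    refine Set.MapsTo.countable_of_injOn (f := fun p : SegTree 𝓕 => p.1.2) ?_ ?_ (hc α)
    · intro p hp
      have hp' : p.1.1 = α := SegTree.atLevel_iff.1 hp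
      obtain ⟨F, hF, h⟩ := p.2
      exact ⟨F, hF, by rw [← hp']; exact h⟩
    · intro p hp q hq h
      have hp' : p.1.1 = α := SegTree.atLevel_iff.1 hp
      have hq' : q.1.1 = α := SegTree.atLevel_iff.1 hq
      apply Subtype.ext
      exact Prod.ext (hp'.trans hq'.symm) h

/-- the branch of a member of the family -/
def SegTree.br (G : Om → V) (hG : G ∈ 𝓕) : Branch (SegTree 𝓕) :=
  ⟨{t | t.1.2 = res G t.1.1}, by
    refine ⟨?_, ?_, ?_⟩
    · intro p hp q hq _
      have hp' : p.1.2 = res G p.1.1 := hp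
      have hq' : q.1.2 = res G q.1.1 := hq
      rcases le_total p.1.1 q.1.1 with h | h
      · left
        refine ⟨h, ?_⟩
        rw [hp', hq']
        exact (res_res h).symm
      · right
        refine ⟨h, ?_⟩
        rw [hp', hq']
        exact (res_res h).symm
    · intro q p hpq hq
      have hq' : q.1.2 = res G q.1.1 := hq
      change p.1.2 = res G p.1.1
      rw [hpq.2, hq']
      exact res_res hpq.1
    · intro α
      exact ⟨⟨(α, res G α), G, hG, rfl⟩, rfl, SegTree.atLevel_iff.2 rfl⟩⟩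

theorem SegTree.exists_fun (b : Branch (SegTree 𝓕)) :
    ∃ G : Om → V, (∀ t : SegTree 𝓕, t ∈ b.1 ↔ t.1.2 = res G t.1.1) ∧
      ∀ α, ∃ F ∈ 𝓕, res F α = res G α := by
  choose n hn1 hn2 using b.2.2.2
  choose a ha using Om.exists_gt
  let G : Om → V := fun γ => (n (a γ)).1.2 γ
  have hlev : ∀ α, (n α).1.1 = α := fun α => SegTree.atLevel_iff.1 (hn2 α)
  have key : ∀ t ∈ b.1, t.1.2 = res G t.1.1 := by
    intro t ht
    rw [← t.res_self, res_eq_iff]
    intro γ hγ
    change t.1.2 γ = (n (a γ)).1.2 γ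
    rcases b.2.1.total ht (hn1 (a γ)) with h | h
    · rw [h.2, res_of_lt hγ]
    · rw [h.2, res_of_lt]
      rw [hlev]
      exact ha γ
  refine ⟨G, fun t => ⟨key t, fun h => ?_⟩, fun α => ?_⟩
  · have h1 := key _ (hn1 t.1.1)
    have : t = n t.1.1 := by
      apply Subtype.ext
      apply Prod.ext
      · exact (hlev _).symm
      · rw [h1, h, hlev]
    rw [this]
    exact hn1 _
  · obtain ⟨F, hF, h⟩ := (n α).2
    have h1 := key _ (hn1 α)
    rw [hlev] at h h1
    exact ⟨F, hF, by rw [← h, h1]⟩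

theorem isStrongKurepa_segTree
    (hc : ∀ α, {s : Om → V | ∃ F ∈ 𝓕, s = res F α}.Countable)
    (hcl : ∀ G : Om → V, (∀ α, ∃ F ∈ 𝓕, res F α = res G α) → G ∈ 𝓕)
    (Φ : (Om → V) → Two)
    (hcont : ∀ G ∈ 𝓕, ∀ α, ∃ β, ∀ G' ∈ 𝓕, res G' β = res G β → ∀ γ < α, Φ G' γ = Φ G γ)
    (hsurj : ∀ g : Two, ∃ G ∈ 𝓕, Φ G = g) :
    IsStrongKurepa (SegTree 𝓕) := by
  have hne : 𝓕.Nonempty := by
    obtain ⟨G, hG, -⟩ := hsurj (fun _ => true)
    exact ⟨G, hG⟩
  choose Gf hG1 hG2 using fun b : Branch (SegTree 𝓕) => SegTree.exists_fun b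
  have hG𝓕 : ∀ b, Gf b ∈ 𝓕 := fun b => hcl _ (hG2 b)
  let f : Branch (SegTree 𝓕) → Two := fun b => Φ (Gf b)
  have hf : Continuous f := by
    apply continuous_two
    intro b α
    obtain ⟨β, hβ⟩ := hcont (Gf b) (hG𝓕 b) α
    let t : SegTree 𝓕 := ⟨(β, res (Gf b) β), Gf b, hG𝓕 b, rfl⟩
    refine ⟨{b' | t ∈ b'.1}, isOpen_cone t, (hG1 b t).2 rfl, ?_⟩
    intro b' hb' γ hγ
    refine hβ (Gf b') (hG𝓕 b') ?_ γ hγ
    exact ((hG1 b' t).1 hb').symm
  have hs : Function.Surjective f := by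
    intro g
    obtain ⟨G, hG, hg⟩ := hsurj g
    refine ⟨SegTree.br G hG, ?_⟩
    have : Gf (SegTree.br G hG) = G := by
      funext γ
      obtain ⟨α, hα⟩ := Om.exists_gt γ
      let t : SegTree 𝓕 := ⟨(α, res G α), G, hG, rfl⟩
      have h1 := (hG1 (SegTree.br G hG) t).1 rfl
      have h2 : res G α = res (Gf (SegTree.br G hG)) α := h1
      exact (res_eq_iff.1 h2 γ hα).symm
    change Φ (Gf (SegTree.br G hG)) = g
    rw [this, hg]
  refine ⟨⟨SegTree.isOmega1Tree hne hc, ?_⟩, f, hf, hs⟩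
  have h1 : Cardinal.mk Two ≤ Cardinal.mk (Branch (SegTree 𝓕)) := Cardinal.mk_le_of_surjective hs
  refine le_trans ?_ h1
  have h2 : Cardinal.mk Two = 2 ^ (Cardinal.aleph 1) := by
    rw [Two, ← Om.mk]
    simp
  rw [h2]
  have h3 : Cardinal.aleph 2 = Order.succ (Cardinal.aleph 1) := by
    rw [Cardinal.succ_aleph]
    congr 1
    norm_num
  rw [h3]
  exact Order.succ_le_of_lt (Cardinal.cantor _)

end

end MP_d9d638_lc
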