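import Pool.Agent.Lib.MP_d9d638_lc.OmBasic

namespace MP_d9d638_lc

open Set Cardinal Ordinal

section

variable {T : Type} [PartialOrder T]

theorem AtLevel.unique {α β : Om} {t : T} (h1 : AtLevel α t) (h2 : AtLevel β t) : α = β := by
  obtain ⟨e1⟩ := h1
  obtain ⟨e2⟩ := h2
  exact Om.iio_iso (e1.symm.trans e2)

theorem AtLevel.lt {α β : Om} {s t : T} (hs : AtLevel α s) (ht : AtLevel β t) (h : s < t) :
    α < β := by
  obtain ⟨e1⟩ := hs
  obtain ⟨φ⟩ := ht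
  have hβ : (φ ⟨s, h⟩).1 < β := (φ ⟨s, h⟩).2
  have hv : ∀ v : Iio (φ ⟨s, h⟩).1, v.1 ∈ Iio β := fun v => (mem_Iio.1 v.2).trans hβ
  have hu : ∀ u : Iio s, u.1 ∈ Iio t := fun u => (mem_Iio.1 u.2).trans h
  let e : Iio s ≃o Iio (φ ⟨s, h⟩).1 :=
    { toFun := fun u => ⟨(φ ⟨u.1, hu u⟩).1, by
        have : (φ ⟨u.1, hu u⟩) < φ ⟨s, h⟩ := φ.strictMono (Subtype.mk_lt_mk.2 u.2)
        exact this⟩
      invFun := fun v => ⟨(φ.symm ⟨v.1, hv v⟩).1, by
        have h1 : φ.symm ⟨v.1, hv v⟩ < φ.symm (φ ⟨s, h⟩) :=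
          φ.symm.strictMono (Subtype.mk_lt_mk.2 v.2)
        rw [φ.symm_apply_apply] at h1
        exact h1⟩
      left_inv := by
        intro u
        apply Subtype.ext
        simp
      right_inv := by
        intro v
        apply Subtype.ext
        simp
      map_rel_iff' := by
        intro u v
        change φ ⟨u.1, hu u⟩ ≤ φ ⟨v.1, hu v⟩ ↔ u ≤ v
        rw [φ.le_iff_le]
        rfl }
  have : α = (φ ⟨s, h⟩).1 := Om.iio_iso (e1.symm.trans e)
  rw [this]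
  exact (φ ⟨s, h⟩).2

theorem IsBranch.lt_of_lt {b : Set T} (hb : IsBranch b) {s t : T} (hs : s ∈ b) (ht : t ∈ b)
    {α β : Om} (h1 : AtLevel α s) (h2 : AtLevel β t) (h : α < β) : s < t := by
  rcases hb.1.total hs ht with h3 | h3
  · rcases h3.lt_or_eq with h4 | h4
    · exact h4
    · subst h4
      exact absurd (h1.unique h2) h.ne
  · rcases h3.lt_or_eq with h4 | h4
    · exact absurd (h2.lt h1 h4) (not_lt.2 h.le)
    · subst h4
      exact absurd (h1.unique h2) h.ne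

theorem IsBranch.eq_of_eq {b : Set T} (hb : IsBranch b) {s t : T} (hs : s ∈ b) (ht : t ∈ b)
    {α : Om} (h1 : AtLevel α s) (h2 : AtLevel α t) : s = t := by
  rcases hb.1.total hs ht with h3 | h3
  · rcases h3.lt_or_eq with h4 | h4
    · exact absurd (h1.lt h2 h4) (lt_irrefl _)
    · exact h4
  · rcases h3.lt_or_eq with h4 | h4
    · exact absurd (h2.lt h1 h4) (lt_irrefl _)
    · exact h4.symm

theorem isOpen_cone (t : T) : IsOpen {b : Branch T | t ∈ b.1} :=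
  TopologicalSpace.isOpen_generateFrom_of_mem ⟨t, rfl⟩

theorem exists_cone {U : Set (Branch T)} (hU : IsOpen U) {b : Branch T} (hb : b ∈ U) :
    ∃ t ∈ b.1, {b' : Branch T | t ∈ b'.1} ⊆ U := by
  change TopologicalSpace.GenerateOpen _ U at hU
  induction hU with
  | basic s hs =>
    obtain ⟨t, rfl⟩ := hs
    exact ⟨t, hb, subset_rfl⟩
  | univ =>
    obtain ⟨t, ht, -⟩ := b.2.2.2 (Classical.arbitrary Om)
    exact ⟨t, ht, subset_univ _⟩
  | inter s t _ _ ihs iht =>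
    obtain ⟨u, hu, hu'⟩ := ihs hb.1
    obtain ⟨v, hv, hv'⟩ := iht hb.2
    rcases b.2.1.total hu hv with h | h
    · refine ⟨v, hv, fun b' hb' => ⟨hu' ?_, hv' hb'⟩⟩
      exact b'.2.2.1 h hb'
    · refine ⟨u, hu, fun b' hb' => ⟨hu' hb', hv' ?_⟩⟩
      exact b'.2.2.1 h hb'
  | sUnion S _ ih =>
    obtain ⟨V, hV, hbV⟩ := hb
    obtain ⟨t, ht, ht'⟩ := ih V hV hbV
    exact ⟨t, ht, ht'.trans (subset_sUnion_of_mem hV)⟩

end

theorem isOpen_cyl (α : Om) (s : Two) : IsOpen {g : Two | ∀ β < α, g β = s β} :=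
  TopologicalSpace.isOpen_generateFrom_of_mem ⟨α, s, rfl⟩

theorem exists_cyl {U : Set Two} (hU : IsOpen U) {g : Two} (hg : g ∈ U) :
    ∃ α : Om, ∀ g' : Two, (∀ β < α, g' β = g β) → g' ∈ U := by
  change TopologicalSpace.GenerateOpen _ U at hU
  induction hU with
  | basic s hs =>
    obtain ⟨α, s, rfl⟩ := hs
    refine ⟨α, fun g' hg' β hβ => ?_⟩
    rw [hg' β hβ]
    exact hg β hβ
  | univ => exact ⟨Classical.arbitrary Om, fun _ _ => mem_univ _⟩
  | inter s t _ _ ihs iht =>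
    obtain ⟨u, hu⟩ := ihs hg.1
    obtain ⟨v, hv⟩ := iht hg.2
    exact ⟨max u v, fun g' hg' => ⟨hu g' fun β hβ => hg' β (hβ.trans_le (le_max_left _ _)),
      hv g' fun β hβ => hg' β (hβ.trans_le (le_max_right _ _))⟩⟩
  | sUnion S _ ih =>
    obtain ⟨V, hV, hbV⟩ := hg
    obtain ⟨α, hα⟩ := ih V hV hbV
    exact ⟨α, fun g' hg' => mem_sUnion_of_mem (hα g' hg') hV⟩

/-- continuity of maps into `2^{ω₁}` -/
theorem continuous_two {X : Type*} [TopologicalSpace X] {f : X → Two}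
    (h : ∀ x (α : Om), ∃ U : Set X, IsOpen U ∧ x ∈ U ∧ ∀ y ∈ U, ∀ β < α, f y β = f x β) :
    Continuous f := by
  refine continuous_generateFrom_iff.2 ?_
  rintro _ ⟨α, s, rfl⟩
  rw [isOpen_iff_forall_mem_open]
  intro x hx
  obtain ⟨U, hU, hxU, hU'⟩ := h x α
  refine ⟨U, fun y hy β hβ => ?_, hU, hxU⟩
  rw [hU' y hy β hβ]
  exact hx β hβ

/-- a continuous map from `[T]` to `2^{ω₁}` is decided up to `α` by a node of the branch -/
theorem exists_decide {T : Type} [PartialOrder T] {f : Branch T → Two} (hf : Continuous f)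
    (b : Branch T) (α : Om) :
    ∃ t ∈ b.1, ∀ b' : Branch T, t ∈ b'.1 → ∀ β ≤ α, f b' β = f b β := by
  obtain ⟨γ, hγ⟩ := Om.exists_gt α
  obtain ⟨t, ht, h⟩ := exists_cone ((isOpen_cyl γ (f b)).preimage hf) (b := b)
    (fun β _ => rfl)
  exact ⟨t, ht, fun b' hb' β hβ => h hb' β (hβ.trans_lt hγ)⟩

end MP_d9d638_lc
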